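import Mathlib
import Pool.Agent.Work.MP_e01960_al.Defs
import Pool.Agent.Work.MP_e01960_al.Proof

/-!
Negative answer to Q1: an ideal `I` in seven variables such that `I` and `I ^ 2` are both
principal symmetric ideals, but `I` is not of the form `(f)_{S_7}` for any polynomial `f`
that is `k`-invariant under a symmetric subgroup.
-/

namespace Pool.Agent.Results.MP_e01960_al.PsiSquareCounterexample

open MvPolynomial Pool.Agent.Work.MP_e01960_al

/-- Both over the complex numbers, and over every field of characteristic zero that contains a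
square root of `-14`, there is an ideal `I` in `7` variables such that `I` and `I ^ 2` are principal
symmetric ideals and such that no polynomial `f` with `I = (f)_{S_7}` is `k`-invariant under
a symmetric subgroup `S_A` with `|A| ≥ 2`. -/
theorem result :
    (∃ I : Ideal (MvPolynomial (Fin 7) ℂ), IsPSI I ∧ IsPSI (I ^ 2) ∧
      ¬ ∃ (f : MvPolynomial (Fin 7) ℂ) (A : Finset (Fin 7)),
        I = symIdeal f ∧ 2 ≤ A.card ∧ KInvariantOn f A) ∧
    ∀ (k : Type) [Field k] [CharZero k], (∃ s : k, s ^ 2 = -14) →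
      ∃ I : Ideal (MvPolynomial (Fin 7) k), IsPSI I ∧ IsPSI (I ^ 2) ∧
        ¬ ∃ (f : MvPolynomial (Fin 7) k) (A : Finset (Fin 7)),
          I = symIdeal f ∧ 2 ≤ A.card ∧ KInvariantOn f A := by
  have key : ∀ (k : Type) [Field k] [CharZero k], (∃ s : k, s ^ 2 = -14) →
      ∃ I : Ideal (MvPolynomial (Fin 7) k), IsPSI I ∧ IsPSI (I ^ 2) ∧
        ¬ ∃ (f : MvPolynomial (Fin 7) k) (A : Finset (Fin 7)),
          I = symIdeal f ∧ 2 ≤ A.card ∧ KInvariantOn f A := by
    intro k _ _ hs
    obtain ⟨s, hs⟩ := hs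
    obtain ⟨I, h1, h2, h3⟩ := main s hs
    refine ⟨I, h1, h2, ?_⟩
    rintro ⟨f, A, hf, hA, hinv⟩
    obtain ⟨i, hi, j, hj, hij⟩ := Finset.one_lt_card.1 (show 1 < A.card by omega)
    obtain ⟨c, hc⟩ := hinv (Equiv.swap i j) (by
      intro l hl
      refine Equiv.swap_apply_of_ne_of_ne ?_ ?_
      · rintro rfl; exact hl hi
      · rintro rfl; exact hl hj)
    exact h3 f hf i j hij c hc
  refine ⟨key ℂ ?_, key⟩
  exact IsAlgClosed.exists_pow_nat_eq (-14 : ℂ) (by norm_num)

end Pool.Agent.Results.MP_e01960_al.PsiSquareCounterexample
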